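import Pool.Agent.Work.MP_c264fd_pr_h14.Interface

/-!
# Block ClockLaw: the law of the list of rings
-/

set_option linter.unusedVariables false

open MeasureTheory ProbabilityTheory Filter Topology
open scoped ENNReal NNReal

namespace Pool.BDep.CL26

/-! ## Deterministic part -/

theorem sort_union' {α : Type*} [LinearOrder α] (A B : Finset α) (h : ∀ a ∈ A, ∀ b ∈ B, a < b) :
    (A ∪ B).sort (fun a b => a ≤ b) =
      A.sort (fun a b => a ≤ b) ++ B.sort (fun a b => a ≤ b) := by
  have hnd : (A.sort (fun a b => a ≤ b) ++ B.sort (fun a b => a ≤ b)).Nodup := by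
    rw [List.nodup_append]
    refine ⟨Finset.sort_nodup _ _, Finset.sort_nodup _ _, ?_⟩
    intro a ha b hb hab
    rw [Finset.mem_sort] at ha hb
    exact absurd hab (h a ha b hb).ne
  have h1 : (A.sort (fun a b => a ≤ b) ++ B.sort (fun a b => a ≤ b)).toFinset = A ∪ B := by
    rw [List.toFinset_append, Finset.sort_toFinset, Finset.sort_toFinset]
  rw [← h1]
  refine (List.toFinset_sort (r := fun a b : α => a ≤ b) hnd).2 ?_
  rw [List.pairwise_append]
  refine ⟨Finset.pairwise_sort _ _, Finset.pairwise_sort _ _, ?_⟩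
  intro a ha b hb
  rw [Finset.mem_sort] at ha hb
  exact (h a ha b hb).le

/-- rings during `(s, t]` -/
def ringsI (c : ℤ → Set ℝ) (Λ : Finset ℤ) (s t : ℝ) : Set (ℝ ×ₗ ℤ) :=
  {p | (ofLex p).2 ∈ Λ ∧ (ofLex p).1 ∈ c (ofLex p).2 ∩ Set.Ioc s t}

section
variable {c : ℤ → Set ℝ} (hf : ∀ x (t : ℝ), (c x ∩ Set.Ioc 0 t).Finite) (Λ : Finset ℤ)

include hf in
theorem ringsI_finite {s : ℝ} (hs : 0 ≤ s) (t : ℝ) : (ringsI c Λ s t).Finite := by
  have h1 : (⋃ x ∈ Λ, (fun τ : ℝ => toLex (τ, x)) '' (c x ∩ Set.Ioc 0 t)).Finite :=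
    Λ.finite_toSet.biUnion fun x _ => (hf x t).image _
  refine h1.subset ?_
  rintro p ⟨hp1, hp2, hp3⟩
  simp only [Set.mem_iUnion]
  exact ⟨(ofLex p).2, hp1, (ofLex p).1, ⟨hp2, lt_of_le_of_lt hs hp3.1, hp3.2⟩, rfl⟩

include hf in
theorem rings_finite (t : ℝ) : (rings c Λ t).Finite := ringsI_finite hf Λ le_rfl t

/-- the list of the sites of the rings during `(s, t]` -/
noncomputable def ringListI {s : ℝ} (hs : 0 ≤ s) (t : ℝ) : List ℤ :=
  ((ringsI_finite hf Λ hs t).toFinset.sort (fun a b => a ≤ b)).map (fun p => (ofLex p).2)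

theorem ringList_split {s : ℝ} (hs : 0 ≤ s) {t : ℝ} (hst : s ≤ t) :
    ringList c Λ t = ringList c Λ s ++ ringListI hf Λ hs t := by
  unfold ringList ringListI
  rw [dif_pos (rings_finite hf Λ t), dif_pos (rings_finite hf Λ s), ← List.map_append,
    ← sort_union']
  · congr 2
    ext p
    simp only [Set.Finite.mem_toFinset, Finset.mem_union]
    constructor
    · rintro ⟨h1, h2, h3⟩
      rcases le_or_gt (ofLex p).1 s with h | h
      · exact Or.inl ⟨h1, h2, h3.1, h⟩
      · exact Or.inr ⟨h1, h2, h, h3.2⟩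
    · rintro (⟨h1, h2, h3⟩ | ⟨h1, h2, h3⟩)
      · exact ⟨h1, h2, h3.1, h3.2.trans hst⟩
      · exact ⟨h1, h2, lt_of_le_of_lt hs h3.1, h3.2⟩
  · intro p hp p' hp'
    rw [Set.Finite.mem_toFinset] at hp hp'
    rw [Prod.Lex.lt_iff]
    exact Or.inl (lt_of_le_of_lt hp.2.2.2 hp'.2.2.1)

include hf in
theorem ringList_zero : ringList c Λ 0 = [] := by
  unfold ringList
  rw [dif_pos (rings_finite hf Λ 0)]
  have : (rings_finite hf Λ 0).toFinset = ∅ := by
    ext p
    simp only [Set.Finite.mem_toFinset, Finset.notMem_empty, iff_false]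
    rintro ⟨h1, h2, h3, h4⟩
    exact absurd h3 (not_lt.2 h4)
  rw [this, Finset.sort_empty]
  rfl

include hf in
theorem fin_cell (x : ℤ) {s : ℝ} (hs : 0 ≤ s) (t : ℝ) : (c x ∩ Set.Ioc s t).Finite :=
  (hf x t).subset fun τ hτ => ⟨hτ.1, lt_of_le_of_lt hs hτ.2.1, hτ.2.2⟩

/-- a cell without ring -/
theorem cell_nil {s : ℝ} (hs : 0 ≤ s) (t : ℝ) (h : ∀ x ∈ Λ, (c x ∩ Set.Ioc s t).ncard = 0) :
    ringListI hf Λ hs t = [] := by
  unfold ringListI
  have : (ringsI_finite hf Λ hs t).toFinset = ∅ := by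
    ext p
    simp only [Set.Finite.mem_toFinset, Finset.notMem_empty, iff_false]
    rintro ⟨h1, h2⟩
    have := (Set.ncard_eq_zero (fin_cell hf _ hs t)).1 (h _ h1)
    rw [Set.eq_empty_iff_forall_notMem] at this
    exact this _ h2
  rw [this, Finset.sort_empty]
  rfl

/-- a cell with one ring -/
theorem cell_one {s : ℝ} (hs : 0 ≤ s) (t : ℝ) (x : ℤ) (hx : x ∈ Λ)
    (h1 : (c x ∩ Set.Ioc s t).ncard = 1)
    (h : ∀ y ∈ Λ, y ≠ x → (c y ∩ Set.Ioc s t).ncard = 0) :
    ringListI hf Λ hs t = [x] := by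
  obtain ⟨τ, hτ⟩ := Set.ncard_eq_one.1 h1
  unfold ringListI
  have : (ringsI_finite hf Λ hs t).toFinset = {toLex (τ, x)} := by
    ext p
    simp only [Set.Finite.mem_toFinset, Finset.mem_singleton]
    constructor
    · rintro ⟨g1, g2⟩
      have g3 : (ofLex p).2 = x := by
        by_contra hne
        have := (Set.ncard_eq_zero (fin_cell hf _ hs t)).1 (h _ g1 hne)
        rw [Set.eq_empty_iff_forall_notMem] at this
        exact this _ g2
      rw [g3, hτ] at g2
      have g4 : (ofLex p).1 = τ := g2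
      rw [← g4, ← g3]
      rfl
    · rintro rfl
      refine ⟨hx, ?_⟩
      show τ ∈ c x ∩ Set.Ioc s t
      rw [hτ]
      rfl
  rw [this, Finset.sort_singleton]
  rfl

/-- the pattern of the numbers of rings -/
noncomputable def pat (S : Finset ℕ) (l : List ℤ) (x : ℤ) (i : ℕ) : ℕ :=
  if i ∈ S ∧ l[(S.filter (· < i)).card]? = some x then 1 else 0

include hf in
theorem ringList_of_pattern {δ : ℝ} (hδ : 0 ≤ δ) (M : ℕ) (S : Finset ℕ) (l : List ℤ)
    (hl : ∀ x ∈ l, x ∈ Λ) (hS : S.card = l.length)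
    (h : ∀ x ∈ Λ, ∀ i < M, (c x ∩ Set.Ioc (i * δ) ((i + 1) * δ)).ncard = pat S l x i) :
    ∀ m ≤ M, ringList c Λ (m * δ) = l.take (S.filter (· < m)).card := by
  intro m
  induction m with
  | zero =>
    intro _
    rw [Nat.cast_zero, zero_mul, ringList_zero hf]
    simp
  | succ m ih =>
    intro hm
    have hs : (0 : ℝ) ≤ m * δ := by positivity
    have hst : (m : ℝ) * δ ≤ (m + 1) * δ := by nlinarith
    rw [Nat.cast_succ, ringList_split hf Λ hs hst, ih (by omega)]
    by_cases hmS : m ∈ S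
    · have hlt : (S.filter (· < m)).card < l.length := by
        rw [← hS]
        refine Finset.card_lt_card (Finset.filter_ssubset.2 ⟨m, hmS, lt_irrefl m⟩)
      set r := (S.filter (· < m)).card with hr
      have hget : l[r]? = some l[r] := List.getElem?_eq_getElem hlt
      have hmem : l[r] ∈ Λ := hl _ (List.getElem_mem hlt)
      have hcell : ringListI hf Λ hs ((m + 1) * δ) = [l[r]] := by
        refine cell_one hf Λ hs _ _ hmem ?_ ?_
        · rw [h _ hmem m (by omega)]
          unfold pat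
          rw [if_pos ⟨hmS, hget⟩]
        · intro y hy hne
          rw [h _ hy m (by omega)]
          unfold pat
          rw [if_neg]
          rintro ⟨_, h2⟩
          rw [← hr, hget] at h2
          exact hne (Option.some.inj h2).symm
      have hcard : (S.filter (· < m + 1)).card = r + 1 := by
        have : S.filter (· < m + 1) = insert m (S.filter (· < m)) := by
          ext i
          simp only [Finset.mem_filter, Finset.mem_insert]
          constructor
          · rintro ⟨h1, h2⟩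
            rcases Nat.lt_succ_iff_lt_or_eq.1 h2 with h3 | h3
            · exact Or.inr ⟨h1, h3⟩
            · exact Or.inl h3
          · rintro (rfl | ⟨h1, h2⟩)
            · exact ⟨hmS, Nat.lt_succ_self _⟩
            · exact ⟨h1, Nat.lt_succ_of_lt h2⟩
        rw [this, Finset.card_insert_of_notMem (by simp)]
      rw [hcell, hcard, List.take_succ_eq_append_getElem hlt]
    · have hcell : ringListI hf Λ hs ((m + 1) * δ) = [] := by
        refine cell_nil hf Λ hs _ fun x hx => ?_
        rw [h _ hx m (by omega)]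
        unfold pat
        rw [if_neg fun h => hmS h.1]
      have hcard : S.filter (· < m + 1) = S.filter (· < m) := by
        ext i
        simp only [Finset.mem_filter]
        constructor
        · rintro ⟨h1, h2⟩
          refine ⟨h1, ?_⟩
          rcases Nat.lt_succ_iff_lt_or_eq.1 h2 with h3 | rfl
          · exact h3
          · exact absurd h1 hmS
        · rintro ⟨h1, h2⟩
          exact ⟨h1, Nat.lt_succ_of_lt h2⟩
      rw [hcell, hcard, List.append_nil]

end

theorem pat_sum (Λ : Finset ℤ) (M : ℕ) (S : Finset ℕ) (l : List ℤ) (hl : ∀ x ∈ l, x ∈ Λ)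
    (hS : S.card = l.length) (hSM : S ⊆ Finset.range M) :
    ∑ p ∈ Λ ×ˢ Finset.range M, pat S l p.1 p.2 = l.length := by
  rw [Finset.sum_product_right, ← hS]
  have h1 : ∀ i ∈ Finset.range M, ∑ x ∈ Λ, pat S l x i = if i ∈ S then 1 else 0 := by
    intro i _
    by_cases hi : i ∈ S
    · have hlt : (S.filter (· < i)).card < l.length := by
        rw [← hS]
        exact Finset.card_lt_card (Finset.filter_ssubset.2 ⟨i, hi, lt_irrefl i⟩)
      have hget : l[(S.filter (· < i)).card]? = some l[(S.filter (· < i)).card] :=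
        List.getElem?_eq_getElem hlt
      have hmem : l[(S.filter (· < i)).card] ∈ Λ := hl _ (List.getElem_mem hlt)
      rw [if_pos hi, Finset.sum_eq_single_of_mem _ hmem]
      · unfold pat
        rw [if_pos ⟨hi, hget⟩]
      · intro y _ hne
        unfold pat
        rw [if_neg]
        rintro ⟨_, h2⟩
        rw [hget] at h2
        exact hne (Option.some.inj h2).symm
    · rw [if_neg hi]
      refine Finset.sum_eq_zero fun x _ => ?_
      unfold pat
      rw [if_neg fun h => hi h.1]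
  rw [Finset.sum_congr rfl h1, Finset.sum_ite_mem, Finset.inter_eq_right.2 hSM]
  simp

theorem pat_inj (Λ : Finset ℤ) (M : ℕ) (S S' : Finset ℕ) (l : List ℤ) (hl : ∀ x ∈ l, x ∈ Λ)
    (hS : S.card = l.length) (hS' : S'.card = l.length) (hSM : S ⊆ Finset.range M)
    (hSM' : S' ⊆ Finset.range M)
    (h : ∀ x ∈ Λ, ∀ i < M, pat S l x i = pat S' l x i) : S = S' := by
  have key : ∀ (S S' : Finset ℕ), S.card = l.length → S ⊆ Finset.range M →
      (∀ x ∈ Λ, ∀ i < M, pat S l x i = pat S' l x i) → S ⊆ S' := by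
    intro S S' hS hSM h i hi
    have hlt : (S.filter (· < i)).card < l.length := by
      rw [← hS]
      exact Finset.card_lt_card (Finset.filter_ssubset.2 ⟨i, hi, lt_irrefl i⟩)
    have hget : l[(S.filter (· < i)).card]? = some l[(S.filter (· < i)).card] :=
      List.getElem?_eq_getElem hlt
    have hmem : l[(S.filter (· < i)).card] ∈ Λ := hl _ (List.getElem_mem hlt)
    have h1 := h _ hmem i (Finset.mem_range.1 (hSM hi))
    unfold pat at h1
    rw [if_pos ⟨hi, hget⟩] at h1
    by_contra hcon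
    rw [if_neg fun h => hcon h.1] at h1
    exact absurd h1 one_ne_zero
  exact Finset.Subset.antisymm (key S S' hS hSM h)
    (key S' S hS' hSM' fun x hx i hi => (h x hx i hi).symm)

/-! ## Probabilities -/

section
variable {Ω : Type} [mΩ : MeasurableSpace Ω] {P : Measure Ω} [IsProbabilityMeasure P]
  {C : ℤ → Ω → Set ℝ}

/-- The σ-algebra of the clocks. -/
@[reducible] noncomputable def clockAlg (C : ℤ → Ω → Set ℝ) : MeasurableSpace Ω :=
  ⨆ (x : ℤ) (a : ℝ) (b : ℝ), MeasurableSpace.comap (count C x a b) inferInstance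

omit mΩ in
theorem clock_meas (C : ℤ → Ω → Set ℝ) (x : ℤ) (a b : ℝ) (n : ℕ) :
    MeasurableSet[clockAlg C] (count C x a b ⁻¹' {n}) := by
  have h1 : MeasurableSpace.comap (count C x a b) inferInstance ≤ clockAlg C :=
    le_iSup_of_le x (le_iSup_of_le a (le_iSup (fun b =>
      MeasurableSpace.comap (count C x a b) inferInstance) b))
  exact h1 _ ⟨{n}, MeasurableSet.singleton n, rfl⟩

theorem clockAlg_le (hC : IsPoissonClocks P C) : clockAlg C ≤ mΩ :=
  iSup_le fun x => iSup_le fun a => iSup_le fun b => (hC.measurable x a b).comap_le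

/-- the event that the numbers of rings follow a pattern -/
def evB (C : ℤ → Ω → Set ℝ) (Λ : Finset ℤ) (t : ℝ) (M : ℕ) (S : Finset ℕ) (l : List ℤ) : Set Ω :=
  ⋂ p ∈ Λ ×ˢ Finset.range M, count C p.1 (p.2 * (t / M)) ((p.2 + 1) * (t / M)) ⁻¹'
    {pat S l p.1 p.2}

/-- the event `A_M(l)` -/
def evA (C : ℤ → Ω → Set ℝ) (Λ : Finset ℤ) (t : ℝ) (M : ℕ) (l : List ℤ) : Set Ω :=
  ⋃ S ∈ (Finset.range M).powersetCard l.length, evB C Λ t M S l

/-- the event `A(l)` -/
def evU (C : ℤ → Ω → Set ℝ) (Λ : Finset ℤ) (t : ℝ) (l : List ℤ) : Set Ω :=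
  {ω | (∀ x ∈ l, x ∈ Λ) ∧ ∃ M : ℕ, 0 < M ∧ ω ∈ evA C Λ t M l}

omit mΩ in
theorem evB_meas (Λ : Finset ℤ) (t : ℝ) (M : ℕ) (S : Finset ℕ) (l : List ℤ) :
    MeasurableSet[clockAlg C] (evB C Λ t M S l) :=
  Finset.measurableSet_biInter _ fun p _ => clock_meas C _ _ _ _

omit mΩ in
theorem evA_meas (Λ : Finset ℤ) (t : ℝ) (M : ℕ) (l : List ℤ) :
    MeasurableSet[clockAlg C] (evA C Λ t M l) :=
  Finset.measurableSet_biUnion _ fun S _ => evB_meas Λ t M S l

omit mΩ in
theorem evU_meas (Λ : Finset ℤ) (t : ℝ) (l : List ℤ) :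
    MeasurableSet[clockAlg C] (evU C Λ t l) := by
  by_cases hl : ∀ x ∈ l, x ∈ Λ
  · have : evU C Λ t l = ⋃ (M : ℕ) (_ : 0 < M), evA C Λ t M l := by
      ext ω
      simp only [evU, Set.mem_iUnion]
      exact ⟨fun h => by obtain ⟨M, h1, h2⟩ := h.2; exact ⟨M, h1, h2⟩,
        fun ⟨M, h1, h2⟩ => ⟨hl, M, h1, h2⟩⟩
    rw [this]
    exact MeasurableSet.iUnion fun M => MeasurableSet.iUnion fun _ => evA_meas Λ t M l
  · have : evU C Λ t l = ∅ := by
      ext ω
      exact ⟨fun h => hl h.1, fun h => h.elim⟩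
    rw [this]
    exact @MeasurableSet.empty Ω (clockAlg C)

theorem evU_ringList (hC : IsPoissonClocks P C) (Λ : Finset ℤ) {t : ℝ} (ht : 0 ≤ t) (l : List ℤ)
    {ω : Ω} (h : ω ∈ evU C Λ t l) : ringList (fun x => C x ω) Λ t = l := by
  obtain ⟨hl, M, hM, hA⟩ := h
  simp only [evA, Set.mem_iUnion] at hA
  obtain ⟨S, hS, hB⟩ := hA
  obtain ⟨hSM, hSc⟩ := Finset.mem_powersetCard.1 hS
  simp only [evB, Set.mem_iInter] at hB
  have hM' : (M : ℝ) ≠ 0 := by exact_mod_cast hM.ne'
  have hδ : 0 ≤ t / M := by positivity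
  have h1 := ringList_of_pattern (c := fun x => C x ω) (fun x t => hC.finite x ω t) Λ hδ M S l hl
    hSc (fun x hx i hi => hB (x, i) (Finset.mem_product.2 ⟨hx, Finset.mem_range.2 hi⟩)) M le_rfl
  rw [mul_div_cancel₀ _ hM'] at h1
  rw [h1]
  have h2 : S.filter (· < M) = S := by
    rw [Finset.filter_eq_self]
    intro i hi
    exact Finset.mem_range.1 (hSM hi)
  rw [h2, hSc, List.take_length]

theorem prob_cell (hC : IsPoissonClocks P C) (x : ℤ) {a b : ℝ} (ha : 0 ≤ a) (hab : a ≤ b) (n : ℕ) :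
    P (count C x a b ⁻¹' {n}) =
      ENNReal.ofReal (Real.exp (-(b - a)) * (b - a) ^ n / n.factorial) := by
  rw [← Measure.map_apply (hC.measurable x a b) (MeasurableSet.singleton n), hC.poisson x a b ha hab,
    poissonMeasure_singleton, Real.coe_toNNReal _ (sub_nonneg.2 hab)]

theorem prob_evB (hC : IsPoissonClocks P C) (Λ : Finset ℤ) {t : ℝ} (ht : 0 ≤ t) {M : ℕ}
    (hM : 0 < M) (S : Finset ℕ) (l : List ℤ) (hl : ∀ x ∈ l, x ∈ Λ) (hS : S.card = l.length)
    (hSM : S ⊆ Finset.range M) :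
    P (evB C Λ t M S l) = ENNReal.ofReal (Real.exp (-(Λ.card * t)) * (t / M) ^ l.length) := by
  have hM' : (0 : ℝ) < M := by exact_mod_cast hM
  set δ := t / M with hδd
  have hδ : 0 ≤ δ := by positivity
  set I := Λ ×ˢ Finset.range M with hI
  let e : Fin I.card ≃ I := I.equivFin.symm
  have hind := hC.indep I.card (fun j => (e j).1.1) (fun j => ((e j).1.2 : ℝ) * δ)
    (fun j => (((e j).1.2 : ℝ) + 1) * δ) (fun j => by positivity) (by
      intro i j hij hx
      have hne : (e i).1.2 ≠ (e j).1.2 := by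
        intro h2
        apply hij
        apply e.injective
        exact Subtype.ext (Prod.ext hx h2)
      rw [Set.disjoint_left]
      rintro τ ⟨h1, h2⟩ ⟨h3, h4⟩
      rcases lt_or_gt_of_ne hne with h | h
      · have : ((e i).1.2 : ℝ) + 1 ≤ (e j).1.2 := by exact_mod_cast h
        have := mul_le_mul_of_nonneg_right this hδ
        linarith
      · have : ((e j).1.2 : ℝ) + 1 ≤ (e i).1.2 := by exact_mod_cast h
        have := mul_le_mul_of_nonneg_right this hδ
        linarith)
  have h1 : evB C Λ t M S l = ⋂ j : Fin I.card,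
      count C (e j).1.1 (((e j).1.2 : ℝ) * δ) ((((e j).1.2 : ℝ) + 1) * δ) ⁻¹'
        {pat S l (e j).1.1 (e j).1.2} := by
    ext ω
    simp only [evB, Set.mem_iInter]
    constructor
    · intro h j
      exact h (e j).1 (e j).2
    · intro h p hp
      have := h (e.symm ⟨p, hp⟩)
      rwa [e.apply_symm_apply] at this
  rw [h1, hind.meas_iInter fun j => ⟨_, MeasurableSet.singleton _, rfl⟩]
  have h2 : ∀ j : Fin I.card, P (count C (e j).1.1 (((e j).1.2 : ℝ) * δ)
      ((((e j).1.2 : ℝ) + 1) * δ) ⁻¹' {pat S l (e j).1.1 (e j).1.2}) =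
        (fun p : I => ENNReal.ofReal (Real.exp (-δ) * δ ^ pat S l p.1.1 p.1.2)) (e j) := by
    intro j
    rw [prob_cell hC _ (by positivity) (by nlinarith)]
    have h3 : (((e j).1.2 : ℝ) + 1) * δ - ((e j).1.2 : ℝ) * δ = δ := by ring
    rw [h3]
    have h4 : (pat S l (e j).1.1 (e j).1.2).factorial = 1 := by
      unfold pat
      split_ifs <;> rfl
    rw [h4]
    simp
  rw [Finset.prod_congr rfl fun j _ => h2 j,
    e.prod_comp (fun p : I => ENNReal.ofReal (Real.exp (-δ) * δ ^ pat S l p.1.1 p.1.2)),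
    Finset.prod_coe_sort I (fun p => ENNReal.ofReal (Real.exp (-δ) * δ ^ pat S l p.1 p.2)),
    ← ENNReal.ofReal_prod_of_nonneg fun p _ => by positivity, Finset.prod_mul_distrib,
    Finset.prod_const, Finset.prod_pow_eq_pow_sum, pat_sum Λ M S l hl hS hSM, ← Real.exp_nat_mul]
  congr 3
  rw [hI, Finset.card_product, Finset.card_range, hδd]
  push_cast
  field_simp

theorem prob_evA (hC : IsPoissonClocks P C) (Λ : Finset ℤ) {t : ℝ} (ht : 0 ≤ t) {M : ℕ}
    (hM : 0 < M) (l : List ℤ) (hl : ∀ x ∈ l, x ∈ Λ) :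
    P (evA C Λ t M l) = ENNReal.ofReal (Real.exp (-(Λ.card * t)) *
      (M.choose l.length * (t / M) ^ l.length)) := by
  have hM' : (0 : ℝ) < M := by exact_mod_cast hM
  unfold evA
  rw [measure_biUnion_finset]
  · rw [Finset.sum_congr rfl fun S hS => prob_evB hC Λ ht hM S l hl
      (Finset.mem_powersetCard.1 hS).2 (Finset.mem_powersetCard.1 hS).1, Finset.sum_const,
      Finset.card_powersetCard, Finset.card_range, nsmul_eq_mul, ← ENNReal.ofReal_natCast,
      ← ENNReal.ofReal_mul (by positivity)]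
    congr 1
    ring
  · intro S hS S' hS' hne
    obtain ⟨hSM, hSc⟩ := Finset.mem_powersetCard.1 (Finset.mem_coe.1 hS)
    obtain ⟨hSM', hSc'⟩ := Finset.mem_powersetCard.1 (Finset.mem_coe.1 hS')
    rw [Function.onFun, Set.disjoint_left]
    intro ω h1 h2
    apply hne
    simp only [evB, Set.mem_iInter] at h1 h2
    refine pat_inj Λ M S S' l hl hSc hSc' hSM hSM' fun x hx i hi => ?_
    have h3 := h1 (x, i) (Finset.mem_product.2 ⟨hx, Finset.mem_range.2 hi⟩)
    have h4 := h2 (x, i) (Finset.mem_product.2 ⟨hx, Finset.mem_range.2 hi⟩)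
    exact (show _ = pat S l x i from h3).symm.trans h4
  · intro S _
    exact clockAlg_le hC _ (evB_meas Λ t M S l)

theorem wt_le_evU (hC : IsPoissonClocks P C) (Λ : Finset ℤ) {t : ℝ} (ht : 0 ≤ t) (l : List ℤ) :
    wt Λ t l ≤ P (evU C Λ t l) := by
  unfold wt
  split_ifs with hl
  · have hlim : Tendsto (fun M : ℕ => ENNReal.ofReal (Real.exp (-(Λ.card * t)) *
        (M.choose l.length * (t / M) ^ l.length))) atTop
        (𝓝 (ENNReal.ofReal (Real.exp (-(Λ.card * t)) * (t ^ l.length / l.length.factorial)))) := by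
      refine ENNReal.tendsto_ofReal (Tendsto.const_mul _ ?_)
      refine tendsto_choose_mul_pow_atTop l.length (p := fun M : ℕ => t / M) (r := t) ?_
      refine Tendsto.congr' ?_ tendsto_const_nhds
      filter_upwards [eventually_gt_atTop 0] with M hM
      have hM' : (M : ℝ) ≠ 0 := by exact_mod_cast hM.ne'
      field_simp
    rw [mul_div_assoc]
    refine le_of_tendsto hlim ?_
    filter_upwards [eventually_gt_atTop 0] with M hM
    rw [← prob_evA hC Λ ht hM l hl]
    exact measure_mono fun ω hω => ⟨hl, M, hM, hω⟩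
  · exact bot_le

theorem evU_disj (hC : IsPoissonClocks P C) (Λ : Finset ℤ) {t : ℝ} (ht : 0 ≤ t) :
    Pairwise (Function.onFun Disjoint fun l => evU C Λ t l) := by
  intro l l' hne
  rw [Function.onFun, Set.disjoint_left]
  intro ω h1 h2
  exact hne ((evU_ringList hC Λ ht l h1).symm.trans (evU_ringList hC Λ ht l' h2))

theorem evU_prob (hP : Stmt_RhoProb) (hC : IsPoissonClocks P C) (Λ : Finset ℤ) {t : ℝ}
    (ht : 0 ≤ t) :
    (∀ l, P (evU C Λ t l) = wt Λ t l) ∧ P (⋃ l, evU C Λ t l)ᶜ = 0 := by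
  have hmeas : ∀ l, MeasurableSet (evU C Λ t l) := fun l => clockAlg_le hC _ (evU_meas Λ t l)
  have hsum : P (⋃ l, evU C Λ t l) = ∑' l, P (evU C Λ t l) :=
    measure_iUnion (evU_disj hC Λ ht) hmeas
  have hwt : ∑' l, wt Λ t l = 1 := by
    have h1 := (hP Λ t ht).measure_univ
    unfold rho at h1
    rw [Measure.sum_apply _ MeasurableSet.univ] at h1
    simpa using h1
  have hle : ∑' l, wt Λ t l ≤ ∑' l, P (evU C Λ t l) := ENNReal.tsum_le_tsum fun l =>
    wt_le_evU hC Λ ht l
  have hle1 : ∑' l, P (evU C Λ t l) ≤ 1 := by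
    rw [← hsum]
    exact prob_le_one
  have heq : ∑' l, P (evU C Λ t l) = 1 := le_antisymm hle1 (hwt ▸ hle)
  constructor
  · intro l
    by_contra hne
    have hlt : wt Λ t l < P (evU C Λ t l) := lt_of_le_of_ne (wt_le_evU hC Λ ht l) (Ne.symm hne)
    have := ENNReal.tsum_lt_tsum (f := fun l => wt Λ t l) (g := fun l => P (evU C Λ t l))
      (by rw [hwt]; exact ENNReal.one_ne_top) (fun l => wt_le_evU hC Λ ht l) hlt
    rw [hwt, heq] at this
    exact lt_irrefl _ this
  · rw [prob_compl_eq_zero_iff (MeasurableSet.iUnion hmeas), hsum, heq]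

end

end Pool.BDep.CL26

namespace Pool.BDep

open CL26 in
theorem stmt_ClockLaw (hP : Stmt_RhoProb) : Stmt_ClockLaw := by
  classical
  intro Ω mΩ P _ C g hC hg hind Λ t ht
  obtain ⟨h1, h2⟩ := evU_prob hP hC Λ ht
  let R : Ω → List ℤ := fun ω =>
    if ω ∈ ⋃ l, evU C Λ t l then ringList (fun x => C x ω) Λ t else []
  have hRpre : ∀ l, R ⁻¹' {l} = evU C Λ t l ∪ (if l = [] then (⋃ l, evU C Λ t l)ᶜ else ∅) := by
    intro l
    ext ω
    constructor
    · intro h
      have h' : R ω = l := h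
      by_cases hω : ω ∈ ⋃ l, evU C Λ t l
      · obtain ⟨l', hl'⟩ := Set.mem_iUnion.1 hω
        have h3 : R ω = l' := by
          show (if ω ∈ ⋃ l, evU C Λ t l then ringList (fun x => C x ω) Λ t else []) = l'
          rw [if_pos hω, evU_ringList hC Λ ht l' hl']
        rw [h3] at h'
        rw [← h']
        exact Or.inl hl'
      · have h3 : R ω = [] := if_neg hω
        rw [h3] at h'
        right
        rw [if_pos h'.symm]
        exact hω
    · rintro (h | h)
      · have hω : ω ∈ ⋃ l, evU C Λ t l := Set.mem_iUnion.2 ⟨l, h⟩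
        show (if ω ∈ ⋃ l, evU C Λ t l then ringList (fun x => C x ω) Λ t else []) = l
        rw [if_pos hω, evU_ringList hC Λ ht l h]
      · split_ifs at h with hl
        · show (if ω ∈ ⋃ l, evU C Λ t l then ringList (fun x => C x ω) Λ t else []) = l
          rw [if_neg h, hl]
        · exact h.elim
  have hRmeas : @Measurable Ω (List ℤ) (clockAlg C) _ R := by
    refine @measurable_to_countable' (List ℤ) Ω _ _ (clockAlg C) R fun l => ?_
    rw [hRpre]
    refine @MeasurableSet.union Ω (clockAlg C) _ _ (evU_meas Λ t l) ?_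
    split_ifs
    · exact @MeasurableSet.compl Ω _ (clockAlg C)
        (@MeasurableSet.iUnion Ω _ (clockAlg C) _ _ fun l => evU_meas Λ t l)
    · exact @MeasurableSet.empty Ω (clockAlg C)
  have hRm : Measurable R := hRmeas.mono (clockAlg_le hC) le_rfl
  have hae : (fun ω => ringList (fun x => C x ω) Λ t) =ᵐ[P] R := by
    have h3 : ∀ᵐ ω ∂P, ω ∈ ⋃ l, evU C Λ t l := by
      rw [ae_iff]
      exact h2
    filter_upwards [h3] with ω hω
    exact (if_pos hω).symm
  refine ⟨⟨R, hRm, hae⟩, ?_⟩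
  have h4 : P.map (fun ω => (g ω, ringList (fun x => C x ω) Λ t)) = P.map (fun ω => (g ω, R ω)) := by
    refine Measure.map_congr ?_
    filter_upwards [hae] with ω hω
    rw [hω]
  have h5 : IndepFun g R P := by
    rw [IndepFun_iff_Indep]
    exact indep_of_indep_of_le_right hind hRmeas.comap_le
  rw [h4, (indepFun_iff_map_prod_eq_prod_map_map hg.aemeasurable hRm.aemeasurable).1 h5]
  congr 1
  refine Measure.ext_of_singleton fun l => ?_
  rw [Measure.map_apply hRm (MeasurableSet.singleton l), hRpre]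
  have h6 : P (evU C Λ t l ∪ (if l = [] then (⋃ l, evU C Λ t l)ᶜ else ∅)) =
      P (evU C Λ t l) := by
    have hz : P (if l = [] then (⋃ l, evU C Λ t l)ᶜ else ∅) = 0 := by
      split_ifs
      · exact h2
      · exact measure_empty
    exact le_antisymm ((measure_union_le _ _).trans (by rw [hz, add_zero]))
      (measure_mono Set.subset_union_left)
  rw [h6, h1 l]
  unfold rho
  rw [Measure.sum_smul_dirac_singleton]

end Pool.BDep
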